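import Pool.Agent.H.MP_12dd5c_an.B

namespace Pool.Agent.Results.MP_2f0599_an.No

open Filter Topology Module Pool.Agent.H.MP_12dd5c_an
open scoped ComplexOrder

section
variable {A M : Type} [NormedAddCommGroup A] [NormedSpace ℂ A] [CStarAlgebra M]

/-- `mul` makes the Banach space `A` a Banach algebra on which `e` is multiplicative -/
def BAlg (mul : A → A → A) (e : A → ℂ) : Prop :=
  CompleteSpace A ∧ (∀ a b c, mul (mul a b) c = mul a (mul b c)) ∧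
    (∀ a b, ‖mul a b‖ ≤ ‖a‖ * ‖b‖) ∧ ∀ a b, e (mul a b) = e a * e b

/-- a bilinear map as a binary operation -/
noncomputable def op (mul : A →L[ℂ] A →L[ℂ] A) (a b : A) : A := mul a b

/-- normal states -/
def P1 (Φ : M → StrongDual ℂ A) : Set A := {a | (∀ x, 0 ≤ Φ (star x * x) a) ∧ Φ 1 a = 1}

/-- the module action `f · a` -/
noncomputable def act (mul : A →L[ℂ] A →L[ℂ] A) (f : StrongDual ℂ A) (a : A) : StrongDual ℂ A := f ∘L mul a

/-- weakly compact operators -/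
def WCpt {D : Type} [NormedAddCommGroup D] [NormedSpace ℂ D] (L : A → D) : Prop :=
  IsCompactOperator fun a => toWeakSpace ℂ D (L a)

/-- weakly almost periodic functionals -/
def WAP (mul : A →L[ℂ] A →L[ℂ] A) : Set (StrongDual ℂ A) := {f | WCpt (act mul f)}

/-- topological left invariant mean on `V` -/
def TLIM {D : Type} [NormedAddCommGroup D] [NormedSpace ℂ D] (ρ : D → A → D) (e : D) (S : Set A)
    (V : Set D) : Prop := ∃ m : StrongDual ℂ D, ‖m‖ = 1 ∧ m e = 1 ∧ ∀ f ∈ V, ∀ a ∈ S, m (ρ f a) = m f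

/-- `Φ` is an isometric isomorphism of `M` onto the dual of `A` -/
def Predual (Φ : M → StrongDual ℂ A) : Prop := IsLinearMap ℂ Φ ∧ Isometry Φ ∧ Function.Surjective Φ

end

section
variable {𝕜 A E : Type} [RCLike 𝕜] [AddCommGroup E] [Module 𝕜 E]

/-- `n`-dimensional subspaces contained in `X` -/
def Ln (𝕜 : Type) [RCLike 𝕜] [Module 𝕜 E] (n : ℕ) (X : Set E) : Set (Submodule 𝕜 E) :=
  {L | finrank 𝕜 L = n ∧ (L : Set E) ⊆ X}

/-- `X` is `n`-consistent -/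
def Cons (S : Set A) (T : A → E →ₗ[𝕜] E) (n : ℕ) (X : Set E) : Prop :=
  (Ln 𝕜 n X).Nonempty ∧ ∀ L ∈ Ln 𝕜 n X, ∀ s ∈ S, L.map (T s) ∈ Ln 𝕜 n X

variable [TopologicalSpace E]

/-- closed invariant subspace of codimension `n` whose cosets meet `X` in compact sets -/
def Sec (S : Set A) (T : A → E →ₗ[𝕜] E) (n : ℕ) (X : Set E) (H : Submodule 𝕜 E) : Prop :=
  IsClosed (H : Set E) ∧ (∀ s ∈ S, H.map (T s) ≤ H) ∧ finrank 𝕜 (E ⧸ H) = n ∧
    ∀ x, IsCompact ({z | z - x ∈ H} ∩ X)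

/-- quasi-equicontinuity on compact sets -/
def Equi (S : Set A) (T : A → E →ₗ[𝕜] E) : Prop :=
  ∀ K : Set E, IsCompact K → ∀ g ∈ closure {g : K → E | ∃ s ∈ S, g = fun y : K => T s y}, Continuous g

/-- linear representation with continuous orbit maps -/
def Rep [TopologicalSpace A] (mul : A → A → A) (S : Set A) (T : A → E →ₗ[𝕜] E) : Prop :=
  (∀ s ∈ S, ∀ t ∈ S, T (mul s t) = T s ∘ₗ T t) ∧ ∀ x, ContinuousOn (fun s => T s x) S

end

/-- the invariant subspace property -/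
def Fn (𝕜 : Type) [RCLike 𝕜] {A : Type} [TopologicalSpace A] (mul : A → A → A) (S : Set A)
    (n : ℕ) : Prop :=
  ∀ (E : Type) [AddCommGroup E] [Module 𝕜 E] [TopologicalSpace E] [IsTopologicalAddGroup E]
    [ContinuousSMul 𝕜 E] [T2Space E] [Module ℝ E] [IsScalarTower ℝ 𝕜 E] [LocallyConvexSpace ℝ E]
    (T : A → E →ₗ[𝕜] E) (X : Set E) (H : Submodule 𝕜 E), Rep mul S T → Equi S T → Cons S T n X →
    Sec S T n X H → ∃ L ∈ Ln 𝕜 n X, ∀ s ∈ S, L.map (T s) = L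

theorem result (𝕜 : Type) [RCLike 𝕜] : ∃ (A M : Type) (_ : NormedAddCommGroup A)
    (_ : NormedSpace ℂ A) (_ : CStarAlgebra M) (mul : A →L[ℂ] A →L[ℂ] A) (Φ : M → StrongDual ℂ A),
    Predual Φ ∧ BAlg (op mul) (Φ 1) ∧ TLIM (act mul) (Φ 1) (P1 Φ) (WAP mul) ∧
      ¬Fn 𝕜 (op mul) (P1 Φ) 1 := by
  obtain ⟨F, _, _, _, _, p, X, G, mul, Φ, W, ⟨o, o1, o2⟩, x1, x2, x3, h0, h1, h2, h3,
    ⟨m, m1, m2, m3⟩, h5⟩ := main 𝕜
  obtain ⟨k1, k2, k3⟩ := h5 _ rfl
  refine ⟨L1 G, Li G, _, _, inferInstance, mul, Φ, ⟨Φ.toLinearEquiv.isLinear, Φ.isometry,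
    Φ.surjective⟩, ⟨inferInstance, h1, h2, h3⟩, ⟨m, m1, m2, fun f hf a ha => m3 f hf a ha.2⟩,
    fun h => ?_⟩
  have ln : ∀ x ∈ X, p x ≠ 0 → (𝕜 ∙ x) ∈ Ln 𝕜 1 X := fun x hx h0 =>
    ⟨finrank_span_singleton fun a => h0 (by simp [a]), fun y hy => by
      obtain ⟨c, rfl⟩ := Submodule.mem_span_singleton.1 hy
      exact x1 x hx c⟩
  have ln' : ∀ L ∈ Ln 𝕜 1 X, ∃ x ∈ X, p x ≠ 0 ∧ L = 𝕜 ∙ x := fun L hL => by
    obtain ⟨x, a, b⟩ := finrank_eq_one_iff'.1 hL.1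
    refine ⟨x, hL.2 x.2, fun c => a (Subtype.ext (x2 _ (hL.2 x.2) c)), le_antisymm (fun y hy => ?_)
      (by simp)⟩
    obtain ⟨c, hc⟩ := b ⟨y, hy⟩
    exact Submodule.mem_span_singleton.2 ⟨c, congrArg Subtype.val hc⟩
  obtain ⟨L, hL, hT⟩ := h F (fun a => W a) X p.ker ⟨fun s hs t ht => by
      beta_reduce; rw [op, k1 s hs t ht]; rfl,
      fun x => (h0.clm_apply continuous_const).continuousOn⟩ (fun K _ g hg =>
      (isClosed_setOfPred_lipschitzWith 1).closure_subset_iff.2 (by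
        rintro _ ⟨s, hs, rfl⟩
        exact (((W s).lipschitzWith_of_opNorm_le (K := 1) (k2 s hs).1).comp
          (LipschitzWith.subtype_val K)).weaken (one_mul _).le) hg |>.continuous)
    ⟨⟨_, ln o o1 (by simp [o2])⟩, fun L hL s hs => by
      obtain ⟨x, a, b, rfl⟩ := ln' L hL
      obtain ⟨-, c, c0, hc⟩ := k2 s hs
      rw [Submodule.map_span, Set.image_singleton]
      exact ln _ ((hc x).2 a) ((hc x).1 ▸ mul_ne_zero c0 b)⟩
    ⟨p.isClosed_ker, fun s hs => by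
      obtain ⟨-, c, c0, hc⟩ := k2 s hs
      rintro _ ⟨x, hx, rfl⟩
      exact (hc x).1.trans (mul_eq_zero_of_right _ hx), by
      rw [(p.toLinearMap.quotKerEquivOfSurjective fun c => ⟨c • o, by simp [o2]⟩).finrank_eq,
        finrank_self], fun x => by
      convert x3 (p x) using 1
      ext z
      simp [sub_eq_zero, and_comm]⟩
  obtain ⟨x, -, b, rfl⟩ := ln' L hL
  obtain ⟨s, hs, hc⟩ := k3 x b
  obtain ⟨c, e⟩ := Submodule.mem_span_singleton.1 ((hT s hs).le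
    (Submodule.mem_map_of_mem (Submodule.mem_span_singleton_self x)))
  exact hc c e.symm

end Pool.Agent.Results.MP_2f0599_an.No
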